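import Pool.Agent.H.MP_a33cdf_gt.A

set_option autoImplicit false
open Set Filter Topology

namespace Pool.Agent.Results.MP_cb28d9_gt.No
open Pool.Agent.H.MP_7a24ab_lc Pool.Agent.H.MP_a33cdf_gt

/-- `L` is s-complete, with infima, suprema, up-sets, down-sets and closures computed inside `L`. -/
def SCompleteOn {X : Type} [TopologicalSpace X] [SemilatticeInf X] (L : Set X) : Prop :=
  (∀ S ⊆ L, S.Nonempty → (∀ x ∈ S, ∀ y ∈ S, x ⊓ y ∈ S) → ∃ a ∈ L, a ∈ lowerBounds S ∧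
    (∀ b ∈ L, b ∈ lowerBounds S → b ≤ a) ∧ a ∈ closure {x ∈ L | ∃ s ∈ S, s ≤ x}) ∧
  ∀ C ⊆ L, C.Nonempty → IsChain (· ≤ ·) C → ∃ a ∈ L, a ∈ upperBounds C ∧
    (∀ b ∈ L, b ∈ upperBounds C → a ≤ b) ∧ a ∈ closure {x ∈ L | ∃ c ∈ C, x ≤ c}

abbrev T : Type := WithTop (W ×ₗ Bool)
def lv (g : W) (b : Bool) : T := ((toLex (g, b) : W ×ₗ Bool) : T)
lemma lv_le {g g' : W} {b b' : Bool} : lv g b ≤ lv g' b' ↔ g < g' ∨ g = g' ∧ b ≤ b' := by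
  simp [lv, Prod.Lex.toLex_le_toLex]
lemma lv_ne {g : W} {b : Bool} : lv g b ≠ ⊤ := WithTop.coe_ne_top
lemma tri (t : T) : t = ⊤ ∨ (∃ g, t = lv g true) ∨ ∃ g, t = lv g false := by
  rcases t with _ | ⟨g, _ | _⟩
  exacts [.inl rfl, .inr (.inr ⟨g, rfl⟩), .inr (.inl ⟨g, rfl⟩)]
lemma lv_tf {g g' : W} : lv g true ≠ lv g' false := by simp [lv]

def P (p : WithTop (Finset W) × T) : Prop := ∀ F : Finset W, p.1 = F → p.2 = lv (F.sup id) false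
def X : Type := Subtype P
noncomputable instance : SemilatticeSup X := Subtype.semilatticeSup (P := P) (by
  rintro ⟨_ | F, s⟩ ⟨_ | G, t⟩ h k H e <;> cases e
  change s ⊔ t = lv ((F ∪ G).sup id) false
  rw [show s = _ from h F rfl, show t = _ from k G rfl, Finset.sup_union]
  exact (Monotone.map_sup (f := (lv · false)) (fun _ _ q => lv_le.2 (by simpa using q.lt_or_eq)) _ _).symm)
lemma le_d {x y : X} : x ≤ y ↔ x.1.1 ≤ y.1.1 ∧ x.1.2 ≤ y.1.2 := Iff.rfl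
lemma s1 (x y : X) : (x ⊔ y).1.1 = x.1.1 ⊔ y.1.1 := rfl
lemma s2 (x y : X) : (x ⊔ y).1.2 = x.1.2 ⊔ y.1.2 := rfl
lemma st {a b : WithTop (Finset W)} : a ⊔ b = ⊤ ↔ a = ⊤ ∨ b = ⊤ := by
  cases a <;> cases b <;> simp [← WithTop.coe_sup]
def mk (t : T) : X := ⟨(⊤, t), nofun⟩
lemma tp {x : X} (h : ∀ g, x.1.2 ≠ lv g false) : x.1.1 = ⊤ := by
  by_contra k
  obtain ⟨F, hF⟩ := WithTop.ne_top_iff_exists.1 k
  exact h _ (x.2 F hF.symm)
lemma tp1 {x : X} (h : x.1.2 = ⊤) : x.1.1 = ⊤ := tp fun _ k => lv_ne (k.symm.trans h)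
lemma tp2 {x : X} {g : W} (h : x.1.2 = lv g true) : x.1.1 = ⊤ := tp fun _ k => lv_tf (h.symm.trans k)
lemma ext' {x y : X} (h : x.1.1 = y.1.1) (k : x.1.2 = y.1.2) : x = y := Subtype.ext (Prod.ext h k)
def big (n : ℕ) (x : X) : Prop := ∀ F : Finset W, x.1.1 = F → n ≤ F.card
lemma big_t {n : ℕ} {x : X} (h : x.1.1 = ⊤) : big n x := fun F e => by rw [h] at e; cases e
lemma big.mono {n : ℕ} {x y : X} (h : big n x) (k : x ≤ y) : big n y := fun F e => by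
  obtain ⟨G, g1, g2⟩ := WithTop.le_coe_iff.1 (k.1.trans e.le)
  exact (h G g1).trans (Finset.card_le_card g2)

def B (x : X) (n : ℕ) (t : WithBot T) (y : X) : Prop := y = x ∨ (t < y.1.2 ∧ ((x.1.2 = ⊤ ∧ ∃ g, y.1.2 = lv g true) ∨
  (x.1.1 = ⊤ ∧ (∃ g, x.1.2 = lv g false) ∧ y.1.2 ≤ x.1.2 ∧ big n y)))
lemma B.mono {x y : X} {n m : ℕ} {t s : WithBot T} (h : B x n t y) (h1 : m ≤ n) (h2 : s ≤ t) : B x m s y :=
  h.imp_right fun k => ⟨h2.trans_lt k.1, k.2.imp_right fun q => ⟨q.1, q.2.1, q.2.2.1, fun F e => h1.trans (q.2.2.2 F e)⟩⟩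
lemma B.le {x y : X} {n : ℕ} {t : WithBot T} (h : B x n t y) : y.1.2 ≤ x.1.2 := by
  rcases h with rfl | ⟨-, h | h⟩
  exacts [le_rfl, h.1 ▸ le_top, h.2.2.1]
instance : TopologicalSpace X where
  IsOpen U := ∀ x ∈ U, ∃ n t, t < (x.1.2 : WithBot T) ∧ ∀ y, B x n t y → y ∈ U
  isOpen_univ _ _ := ⟨0, ⊥, WithBot.bot_lt_coe _, fun _ _ => trivial⟩
  isOpen_inter _ _ h k x hx := by
    obtain ⟨n, t, h1, h2⟩ := h x hx.1
    obtain ⟨m, s, k1, k2⟩ := k x hx.2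
    exact ⟨max n m, max t s, max_lt h1 k1, fun y q => ⟨h2 y (q.mono (le_max_left _ _) (le_max_left _ _)),
      k2 y (q.mono (le_max_right _ _) (le_max_right _ _))⟩⟩
  isOpen_sUnion _ h x := fun ⟨U, u, hx⟩ => (h U u x hx).imp fun _ => Exists.imp fun _ q => ⟨q.1, fun y k => ⟨U, u, q.2 y k⟩⟩
lemma oB (x : X) (n : ℕ) {t : WithBot T} (h : t < x.1.2) : IsOpen {y | B x n t y} := by
  rintro y (rfl | ⟨h1, ⟨h2, g, h3⟩ | ⟨h2, ⟨g, h3⟩, h4, h5⟩⟩)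
  · exact ⟨n, t, h, fun _ => id⟩
  · refine ⟨n, t, h1, ?_⟩
    rintro z (rfl | ⟨-, k | ⟨-, ⟨_, k⟩, -⟩⟩)
    exacts [.inr ⟨h1, .inl ⟨h2, g, h3⟩⟩, (lv_ne (h3.symm.trans k.1)).elim, (lv_tf (h3.symm.trans k)).elim]
  · refine ⟨n, t, h1, ?_⟩
    rintro z (rfl | ⟨k1, k | k⟩)
    exacts [.inr ⟨h1, .inr ⟨h2, ⟨g, h3⟩, h4, h5⟩⟩, (lv_ne (top_unique (k.1.ge.trans (h4.trans h3.le)))).elim,
      .inr ⟨k1, .inr ⟨h2, ⟨g, h3⟩, k.2.2.1.trans h4, k.2.2.2⟩⟩]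
lemma iso {x y : X} {n : ℕ} {t : WithBot T} (h : x.1.1 ≠ ⊤) (k : B x n t y) : y = x :=
  k.resolve_right fun q => q.2.elim (fun w => h (tp1 w.1)) fun w => h w.1

lemma key {x y : X} (hxy : y.1.2 ≤ x.1.2) (n : ℕ) {t : WithBot T} (h : t < x.1.2) : ∃ s < (x.1.2 : WithBot T),
    ∃ s' < (y.1.2 : WithBot T), ∀ u v, B x n s u → B y n s' v → B (x ⊔ y) n t (u ⊔ v) := by
  have e : (x ⊔ y).1.2 = x.1.2 := sup_eq_left.2 hxy
  rcases tri x.1.2 with k | ⟨g, k⟩ | ⟨g, k⟩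
  · have tt : ∀ u v : X, u.1.2 = ⊤ ∨ v.1.2 = ⊤ → u ⊔ v = x ⊔ y := fun u v q => by
      have : (u ⊔ v).1.2 = ⊤ := by rw [s2]; rcases q with q | q <;> simp [q]
      exact ext' ((tp1 this).trans (tp1 (e.trans k)).symm) (this.trans (e.trans k).symm)
    by_cases k' : y.1.2 = ⊤
    · refine ⟨t, h, t, by rwa [k', ← k], ?_⟩
      rintro u v (rfl | ⟨a, ⟨-, g, b⟩ | ⟨-, ⟨g, b⟩, -⟩⟩) (rfl | ⟨c, ⟨-, g', d⟩ | ⟨-, ⟨g', d⟩, -⟩⟩) <;>
        first | exact .inl (tt _ _ (.inl k)) | exact .inl (tt _ _ (.inr k')) | exact (lv_ne (b.symm.trans k)).elim |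
          exact (lv_ne (d.symm.trans k')).elim | skip
      refine .inr ⟨a.trans_le (WithBot.coe_le_coe.2 le_sup_left), .inl ⟨e.trans k, ?_⟩⟩
      rw [s2]; rcases le_total u.1.2 v.1.2 with q | q <;> simp only [q, sup_of_le_left, sup_of_le_right]
      exacts [⟨_, d⟩, ⟨_, b⟩]
    · refine ⟨max t y.1.2, max_lt h (WithBot.coe_lt_coe.2 (k ▸ lt_top_iff_ne_top.2 k')), ⊥, WithBot.bot_lt_coe _, ?_⟩
      rintro u v (rfl | ⟨a, ⟨-, g, b⟩ | ⟨-, ⟨g, b⟩, -⟩⟩) hv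
      · exact .inl (tt _ _ (.inl k))
      · have : (u ⊔ v).1.2 = u.1.2 := sup_eq_left.2 (hv.le.trans (WithBot.coe_lt_coe.1 (lt_of_le_of_lt (le_max_right _ _) a)).le)
        exact .inr ⟨this ▸ lt_of_le_of_lt (le_max_left _ _) a, .inl ⟨e.trans k, g, this.trans b⟩⟩
      · exact (lv_ne (b.symm.trans k)).elim
  · refine ⟨t, h, ⊥, WithBot.bot_lt_coe _, ?_⟩
    rintro u v (rfl | ⟨a, ⟨b, -⟩ | ⟨-, ⟨g, b⟩, -⟩⟩) hv
    · exact .inl (ext' (by simp [s1, tp2 k]) ((sup_eq_left.2 (hv.le.trans hxy)).trans e.symm))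
    exacts [(lv_ne (k.symm.trans b)).elim, (lv_tf (k.symm.trans b)).elim]
  refine ⟨t, h, ⊥, WithBot.bot_lt_coe _, fun u v hu hv => ?_⟩
  by_cases z : (x ⊔ y).1.1 = ⊤
  swap
  · rw [s1, st, not_or] at z
    exact .inl (by rw [iso z.1 hu, iso z.2 hv])
  refine .inr ⟨lt_of_lt_of_le ?_ (WithBot.coe_le_coe.2 le_sup_left), .inr ⟨z, ⟨g, e.trans k⟩,
    (sup_le hu.le (hv.le.trans hxy)).trans e.ge, ?_⟩⟩
  · exact hu.elim (· ▸ h) (·.1)
  rw [s1, st] at z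
  rcases z with z | z
  · refine big.mono ?_ le_sup_left
    rcases hu with rfl | ⟨-, ⟨-, g, b⟩ | b⟩
    exacts [big_t z, big_t (tp2 b), b.2.2.2]
  · refine big.mono ?_ le_sup_right
    rcases hv with rfl | ⟨-, ⟨-, g, b⟩ | b⟩
    exacts [big_t z, big_t (tp2 b), b.2.2.2]

instance : ContinuousSup X := ⟨⟨fun U hU => isOpen_prod_iff.2 fun x y h => by
  obtain ⟨n, t, h1, h2⟩ := hU _ h
  rcases le_total y.1.2 x.1.2 with k | k
  · obtain ⟨s, s1, s', s2, q⟩ := key k n (h1.trans_eq (congrArg _ (sup_eq_left.2 k)))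
    exact ⟨_, _, oB x n s1, oB y n s2, .inl rfl, .inl rfl, fun p hp => h2 _ (q _ _ hp.1 hp.2)⟩
  · obtain ⟨s, s1, s', s2, q⟩ := key k n (h1.trans_eq (congrArg _ (sup_eq_right.2 k)))
    exact ⟨_, _, oB x n s2, oB y n s1, .inl rfl, .inl rfl, fun p hp => h2 _ (by
      have := q _ _ hp.2 hp.1; rwa [sup_comm, sup_comm p.2] at this)⟩⟩⟩

instance : T2Space X := by
  have a : ∀ x y : X, y.1.2 < x.1.2 ∨ (x ≠ y ∧ y.1.1 ≠ ⊤) → ∃ u v : Set X, IsOpen u ∧ IsOpen v ∧ x ∈ u ∧ y ∈ v ∧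
      Disjoint u v := by
    rintro x y (h | ⟨h, k⟩)
    · refine ⟨_, _, oB x 0 (WithBot.coe_lt_coe.2 h), oB y 0 (WithBot.bot_lt_coe _), .inl rfl, .inl rfl,
        disjoint_left.2 fun z z1 z2 => z2.le.not_gt ?_⟩
      exact z1.elim (· ▸ h) fun q => WithBot.coe_lt_coe.1 q.1
    obtain ⟨F, hF⟩ := WithTop.ne_top_iff_exists.1 k
    refine ⟨_, _, oB x (F.card + 1) (WithBot.bot_lt_coe _), oB y 0 (WithBot.bot_lt_coe _), .inl rfl, .inl rfl,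
      disjoint_left.2 fun z z1 z2 => ?_⟩
    obtain rfl := iso k z2
    rcases z1 with q | ⟨-, ⟨-, g, b⟩ | b⟩
    exacts [h q.symm, k (tp2 b), (Nat.lt_succ_self _).not_ge (b.2.2.2 F hF.symm)]
  refine ⟨fun x y h => ?_⟩
  by_cases k : y.1.2 < x.1.2 ∨ (x ≠ y ∧ y.1.1 ≠ ⊤)
  · exact a x y k
  obtain ⟨u, v, h1, h2, h3, h4, h5⟩ := a y x (by
    by_contra! q
    push Not at k
    exact h (ext' ((q.2 h.symm).trans (k.2 h).symm) (le_antisymm k.1 q.1)))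
  exact ⟨v, u, h2, h1, h4, h3, h5.symm⟩

lemma mcl {A : Set X} {x : X} (h : ∀ n t, t < (x.1.2 : WithBot T) → ∃ y ∈ A, B x n t y) : x ∈ closure A :=
  mem_closure_iff.2 fun U hU hx => by
    obtain ⟨n, t, h1, h2⟩ := hU x hx
    obtain ⟨y, y1, y2⟩ := h n t h1
    exact ⟨y, h2 y y2, y1⟩

lemma sup {L C : Set X} (hL : IsMaxChain (· ≤ ·) L) (hC : C ⊆ L) (hn : C.Nonempty) :
    ∃ a ∈ L, IsLUB C a ∧ a ∈ closure {x ∈ L | ∃ c ∈ C, x ≤ c} := by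
  have mem : ∀ a, (∀ l ∈ L, l ≤ a ∨ a ≤ l) → a ∈ L := fun a h => by
    rw [hL.2 (hL.1.insert fun l hl _ => (h l hl).symm) (subset_insert _ _)]; exact .inl rfl
  have tot : ∀ x ∈ L, ∀ y ∈ L, x ≤ y ∨ y ≤ x := fun x hx y hy => hL.1.total hx hy
  by_cases h : ∃ a, IsGreatest C a
  · obtain ⟨a, h⟩ := h
    exact ⟨a, hC h.1, h.isLUB, subset_closure ⟨hC h.1, a, h.1, le_rfl⟩⟩
  have nx : ∀ c ∈ C, ∃ d ∈ C, c < d := fun c hc => by
    by_contra! k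
    exact h ⟨c, hc, fun d hd => (tot _ (hC hd) _ (hC hc)).elim id fun q => (eq_of_le_of_not_lt q (k d hd)).ge⟩
  have bg : ∀ n, ∃ c ∈ C, big n c := fun n => by
    induction n with
    | zero => exact hn.imp fun _ k => ⟨k, fun _ _ => Nat.zero_le _⟩
    | succ n ih =>
      obtain ⟨c, c1, c2⟩ := ih
      obtain ⟨d, d1, d2⟩ := nx c c1
      refine ⟨d, d1, fun F e => ?_⟩
      obtain ⟨G, g1, g2⟩ := WithTop.le_coe_iff.1 (d2.le.1.trans e.le)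
      refine (c2 G g1).trans_lt (Finset.card_lt_card (lt_of_le_of_ne g2 fun q => d2.ne ?_))
      exact ext' (by rw [g1, e, q]) (by rw [c.2 G g1, d.2 F e, q])
  obtain ⟨t, t1, t2⟩ := (wellFounded_lt (α := T)).has_min {t | ∀ c ∈ C, c.1.2 ≤ t} ⟨⊤, fun _ _ => le_top⟩
  have lub : IsLUB C (mk t) := ⟨fun c hc => ⟨le_top, t1 c hc⟩, fun b hb => ⟨ge_of_eq (by
    by_contra k
    obtain ⟨F, hF⟩ := WithTop.ne_top_iff_exists.1 k
    obtain ⟨c, c1, c2⟩ := bg (F.card + 1)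
    exact (Nat.lt_succ_self _).not_ge (c2.mono (hb c1) F hF.symm)), not_lt.1 (t2 _ fun c hc => (hb hc).2)⟩⟩
  have ab : ∀ s : WithBot T, s < t → ∃ c ∈ C, s < c.1.2 := fun s hs => by
    induction s using WithBot.recBotCoe with
    | bot => exact hn.imp fun _ k => ⟨k, WithBot.bot_lt_coe _⟩
    | coe s =>
      by_contra! k
      exact t2 s (by simpa using k) (WithBot.coe_lt_coe.1 hs)
  have nt : ∀ c ∈ C, c.1.1 = ⊤ → c.1.2 ≠ t := fun c hc e k => h ⟨c, hc, (ext' e k : c = mk t) ▸ lub.1⟩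
  refine ⟨_, mem _ fun l hl => ?_, lub, mcl fun n s hs => ?_⟩
  · by_cases k : ∃ c ∈ C, l ≤ c
    · obtain ⟨c, c1, c2⟩ := k; exact .inl (c2.trans (lub.1 c1))
    · exact .inr (lub.2 fun c hc => (tot _ (hC hc) _ hl).resolve_right fun q => k ⟨c, hc, q⟩)
  rcases tri t with k | ⟨g, k⟩ | ⟨g, k⟩
  · obtain ⟨c, c1, c2⟩ : ∃ c ∈ C, c.1.1 = ⊤ := by
      by_contra! q
      choose! F hF using fun c hc => WithTop.ne_top_iff_exists.1 (q c hc)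
      obtain ⟨g, hg⟩ := bdd ((countable_of_injective_of_countable_image (s := C) (f := fun c => (F c).card)
        (fun a ha b hb e => by
          have : F a = F b := (tot _ (hC ha) _ (hC hb)).elim
            (fun w => Finset.eq_of_subset_of_card_le (by simpa [← hF a ha, ← hF b hb] using w.1) e.ge)
            fun w => (Finset.eq_of_subset_of_card_le (by simpa [← hF a ha, ← hF b hb] using w.1) e.le).symm
          exact ext' (by rw [← hF a ha, ← hF b hb, this]) (by rw [a.2 _ (hF a ha).symm, b.2 _ (hF b hb).symm, this]))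
        (to_countable _)).image fun c => (F c).sup id)
      exact t2 (lv g false) (fun c hc => (c.2 _ (hF c hc).symm).le.trans (lv_le.2 (.inl (hg _ ⟨c, hc, rfl⟩))))
        (k ▸ lt_top_iff_ne_top.2 lv_ne)
    obtain ⟨d, d1, d2⟩ := ab (max s c.1.2) (max_lt hs (WithBot.coe_lt_coe.2 ((t1 c c1).lt_of_ne (nt c c1 c2))))
    obtain ⟨g, hg⟩ : ∃ g, d.1.2 ≤ lv g true := by
      rcases tri d.1.2 with q | ⟨g, q⟩ | ⟨g, q⟩
      exacts [(nt d d1 (tp1 q) (q.trans k.symm)).elim, ⟨g, q.le⟩, ⟨g, q.le.trans (lv_le.2 (by simp))⟩]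
    obtain ⟨e, e1, e2⟩ := ab (lv g true) (WithBot.coe_lt_coe.2 (k ▸ lt_top_iff_ne_top.2 lv_ne))
    have cg := (WithBot.coe_lt_coe.1 (lt_of_le_of_lt (le_max_right _ _) d2)).trans_le hg
    have up : ∀ l ∈ L, l ≤ c ∨ l.1.1 = ⊤ := fun l hl => (tot _ hl _ (hC c1)).imp_right fun q => top_unique (c2.ge.trans q.1)
    refine ⟨mk (lv g true), ⟨mem _ fun l hl => (up l hl).elim (fun q => .inl ⟨le_top, q.2.trans cg.le⟩) fun q =>
      (le_total l.1.2 (lv g true)).imp (fun w => ⟨le_top, w⟩) fun w => ⟨q.ge, w⟩, e, e1, ((up e (hC e1)).resolve_left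
        fun q => (cg.trans (WithBot.coe_lt_coe.1 e2)).not_ge q.2).ge, (WithBot.coe_lt_coe.1 e2).le⟩, .inr
          ⟨(lt_of_le_of_lt (le_max_left _ _) d2).trans_le (WithBot.coe_le_coe.2 hg), .inl ⟨k, g, rfl⟩⟩⟩
  · obtain ⟨c, c1, c2⟩ := ab (lv g false) (WithBot.coe_lt_coe.2 (k ▸ not_le.1 (by simp [lv_le])))
    have : c.1.2 = t := le_antisymm (t1 c c1) (by
      have := WithBot.coe_lt_coe.1 c2
      rcases tri c.1.2 with q | ⟨g, q⟩ | ⟨g, q⟩ <;> rw [q] at this ⊢ <;> simp only [k, le_top, lv_le, ← not_le] at this ⊢ <;>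
        first | simpa [← le_iff_lt_or_eq] using this | exact .inl (by simpa [← le_iff_lt_or_eq] using this))
    exact (nt c c1 (tp2 (this.trans k)) this).elim
  obtain ⟨c, c1, c2⟩ := ab s hs
  obtain ⟨d, d1, d2⟩ := bg n
  rcases tot _ (hC c1) _ (hC d1) with q | q
  · exact ⟨d, ⟨hC d1, d, d1, le_rfl⟩, .inr ⟨c2.trans_le (WithBot.coe_le_coe.2 q.2), .inr ⟨rfl, ⟨g, k⟩, t1 d d1, d2⟩⟩⟩
  · exact ⟨c, ⟨hC c1, c, c1, le_rfl⟩, .inr ⟨c2, .inr ⟨rfl, ⟨g, k⟩, t1 c c1, d2.mono q⟩⟩⟩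

theorem result : ∃ (X : Type) (_ : TopologicalSpace X) (_ : SemilatticeInf X), ContinuousInf X ∧ T2Space X ∧
    (∀ L : Set X, IsMaxChain (· ≤ ·) L → SCompleteOn L) ∧ ¬ SCompleteOn (univ : Set X) := by
  refine ⟨Xᵒᵈ, inferInstance, inferInstance, inferInstance, inferInstanceAs (T2Space X), fun L hL => ⟨fun S h1 h2 _ => ?_,
    fun C h1 h2 h3 => ?_⟩, fun h => ?_⟩
  · obtain ⟨a, a1, a2, a3⟩ := sup (L := L) (C := S) hL.symm h1 h2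
    exact ⟨a, a1, a2.1, fun b _ hb => a2.2 hb, a3⟩
  · obtain ⟨a, a1, a2⟩ := (InvImage.wf (fun x : X => x.1) wellFounded_lt).has_min C h2
    have : a ∈ upperBounds C := fun c hc => (h3.total hc a1).elim id fun q => (eq_of_le_of_not_lt (α := X) q (a2 c hc)).ge
    exact ⟨a, h1 a1, this, fun b _ hb => hb a1, subset_closure ⟨h1 a1, a, a1, le_rfl⟩⟩
  let f : Finset W → X := fun F => ⟨(F, _), fun _ e => by cases e; rfl⟩
  obtain ⟨a, -, a1, -, a2⟩ := h.1 {x : X | x.1.1 ≠ ⊤} (subset_univ _) ⟨f ∅, nofun⟩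
    fun x hx y hy => (st (a := x.1.1)).not.2 (not_or.2 ⟨hx, hy⟩)
  have : ∀ g b, a.1.2 ≠ lv g b := fun g b e => by
    obtain ⟨u, hu⟩ := bdd (countable_singleton g)
    have := lv_le.1 ((a1 (a := f {u}) nofun).2.trans e.le)
    simp only [Finset.sup_singleton, id] at this
    exact (hu g rfl).not_ge (this.elim le_of_lt fun q => q.1.le)
  have k : a.1.2 = ⊤ := (tri _).resolve_right fun q => q.elim (fun ⟨_, w⟩ => this _ _ w) fun ⟨_, w⟩ => this _ _ w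
  obtain ⟨y, y1, -, s, s1, s2⟩ := mem_closure_iff.1 a2 _ (oB a 0 (WithBot.bot_lt_coe _)) (.inl rfl)
  refine s1 (top_unique (le_trans (ge_of_eq ?_) s2.1))
  rcases y1 with rfl | ⟨-, ⟨-, g, b⟩ | ⟨-, ⟨g, b⟩, -⟩⟩
  exacts [tp1 k, tp2 b, (this _ _ b).elim]

end Pool.Agent.Results.MP_cb28d9_gt.No
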